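import Pool.Agent.W300.PG.TRGE
import Pool.Agent.Y174.BDefs

/-! Kodaira dimension and numerical dimension of pairs as numbers. -/

set_option autoImplicit false
set_option linter.overlappingInstances false
set_option linter.unusedSectionVars false

universe u v

open FF IntermediateField Pool.Agent.W619.PQ Pool.Agent.W619.PL Pool.Agent.W619.TW
  Pool.Agent.W603.LV Pool.Agent.W619.Y Pool.Agent.W303.PG Pool.Agent.Y174

namespace Pool.Agent.V11168.Rel

section

variable {k : Type v} {K : Type u} [Field k] [Field K] [Algebra k K] {n : ℕ}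
  {δ : Place k K → ℝ}

/-- sections of `w (K + Δ)` -/
def PSec (δ : Place k K → ℝ) (w : ℕ) (η : (Fin n → Derivation k K K) → K) : Prop :=
  PairSec k K n δ {1} w 0 η

theorem psec_iff {w : ℕ} {η : (Fin n → Derivation k K K) → K} : PSec δ w η ↔
    IsPluriForm k K n w η ∧ ∀ v : Place k K, IsDivisorial v n →
      ∀ D : Fin n → Derivation k K K, (∀ l, ∀ f, v.Reg f → v.Reg (D l f)) →
        η D = 0 ∨ -((w : ℝ) * δ v) ≤ v.ord (η D) := by
  unfold PSec PairSec
  refine and_congr_right fun _ => forall_congr' fun v => forall_congr' fun _ =>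
    forall_congr' fun D => forall_congr' fun _ => ?_
  constructor
  · rintro (h | ⟨s, -, -, h⟩)
    · exact Or.inl h
    · right
      simpa using h
  · rintro (h | h)
    · exact Or.inl h
    · right
      refine ⟨1, Finset.mem_singleton_self 1, one_ne_zero, ?_⟩
      simpa using h

theorem psec_one : PSec (n := n) δ 0 (fun _ => 1) := by
  rw [psec_iff]
  refine ⟨fun A D => by simp, fun v _ D _ => Or.inr ?_⟩
  rw [v.ord_one]
  simp

theorem psec_mul {a b : ℕ} {η ζ : (Fin n → Derivation k K K) → K} (hη : PSec δ a η)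
    (hζ : PSec δ b ζ) : PSec δ (a + b) (fun D => η D * ζ D) := by
  rw [psec_iff] at hη hζ ⊢
  refine ⟨fun A D => ?_, fun v hv D hD => ?_⟩
  · change η _ * ζ _ = _
    rw [hη.1 A D, hζ.1 A D, pow_add]
    ring
  · rcases hη.2 v hv D hD with h | h
    · left; rw [h, zero_mul]
    rcases hζ.2 v hv D hD with h' | h'
    · left; rw [h', mul_zero]
    by_cases hf0 : η D = 0
    · left; rw [hf0, zero_mul]
    by_cases hg0 : ζ D = 0
    · left; rw [hg0, mul_zero]
    right
    rw [v.ord_mul hf0 hg0]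
    push_cast
    linarith

theorem psec_pow {a : ℕ} {η : (Fin n → Derivation k K K) → K} (hη : PSec δ a η) (p : ℕ) :
    PSec δ (p * a) (fun D => η D ^ p) := by
  induction p with
  | zero =>
    rw [Nat.zero_mul]
    simp only [pow_zero]
    exact psec_one
  | succ p ih =>
    rw [Nat.succ_mul]
    simp only [pow_succ]
    exact psec_mul ih hη

theorem psec_prod {ι : Type} (s : Finset ι) (a : ι → ℕ)
    (η : ι → (Fin n → Derivation k K K) → K) (h : ∀ l ∈ s, PSec δ (a l) (η l)) :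
    PSec δ (∑ l ∈ s, a l) (fun D => ∏ l ∈ s, η l D) := by
  classical
  induction s using Finset.induction_on with
  | empty =>
    simp only [Finset.sum_empty, Finset.prod_empty]
    exact psec_one
  | insert i s hi ih =>
    rw [Finset.sum_insert hi]
    simp only [Finset.prod_insert hi]
    exact psec_mul (h i (Finset.mem_insert_self i s)) (ih fun l hl => h l (Finset.mem_insert_of_mem hl))

/-- growth of the number of sections of a pair -/
theorem pair_growth {h : ℕ} (hK : PairKod k K n δ h) :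
    ∃ m : ℕ, 1 ≤ m ∧ ∀ j, 1 ≤ j → HasIndep k K n (j ^ h) (PSec (n := n) δ (j * m)) := by
  obtain ⟨m, hm, ω, hω, D0, hD0, hind⟩ := hK
  refine ⟨(h + 1) * m, Nat.mul_pos (Nat.succ_pos h) hm, fun j hj => ?_⟩
  let M : ℕ := j * (h + 1)
  have hMm : M * m = j * ((h + 1) * m) := by
    change j * (h + 1) * m = j * ((h + 1) * m); ring
  have hrM : ∀ r : Fin h → Fin j, ∑ l, (r l : ℕ) ≤ M := by
    intro r
    calc ∑ l, (r l : ℕ) ≤ ∑ _l : Fin h, j := Finset.sum_le_sum fun l _ => (r l).2.le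
      _ = h * j := by simp
      _ ≤ j * (h + 1) := by nlinarith
  let η : (Fin h → Fin j) → (Fin n → Derivation k K K) → K := fun r D =>
    ω 0 D ^ (M - ∑ l, (r l : ℕ)) * ∏ l : Fin h, ω l.succ D ^ (r l : ℕ)
  have hη : ∀ r, PSec (n := n) δ (M * m) (η r) := by
    intro r
    have h1 := psec_mul (psec_pow (hω 0) (M - ∑ l, (r l : ℕ)))
      (psec_prod Finset.univ (fun l : Fin h => (r l : ℕ) * m)
        (fun l D => ω l.succ D ^ (r l : ℕ)) (fun l _ => psec_pow (hω l.succ) (r l : ℕ)))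
    have h2 : (M - ∑ l, (r l : ℕ)) * m + ∑ l, (r l : ℕ) * m = M * m := by
      rw [← Finset.sum_mul, ← add_mul, Nat.sub_add_cancel (hrM r)]
    rw [h2] at h1
    exact h1
  have hli : LinearIndependent k η := by
    let φ : ((Fin n → Derivation k K K) → K) →ₗ[k] K := LinearMap.proj D0
    refine LinearIndependent.of_comp φ ?_
    let W : K := ω 0 D0 ^ M
    have hW : W ≠ 0 := pow_ne_zero _ (hD0 0)
    have e : φ ∘ η = (LinearMap.mulLeft k W) ∘ fun r : Fin h → Fin j =>
        ∏ l, (ω l.succ D0 / ω 0 D0) ^ (r l : ℕ) := by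
      funext r
      change ω 0 D0 ^ (M - ∑ l, (r l : ℕ)) * ∏ l : Fin h, ω l.succ D0 ^ (r l : ℕ) =
        ω 0 D0 ^ M * ∏ l, (ω l.succ D0 / ω 0 D0) ^ (r l : ℕ)
      have h3 : ∏ l : Fin h, ω l.succ D0 ^ (r l : ℕ) =
          ω 0 D0 ^ (∑ l, (r l : ℕ)) * ∏ l, (ω l.succ D0 / ω 0 D0) ^ (r l : ℕ) := by
        rw [← Finset.prod_pow_eq_pow_sum, ← Finset.prod_mul_distrib]
        refine Finset.prod_congr rfl fun l _ => ?_
        rw [← mul_pow, mul_div_cancel₀ _ (hD0 0)]
      rw [h3, ← mul_assoc, ← pow_add, Nat.sub_add_cancel (hrM r)]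
    rw [e]
    exact (mono_indep _ hind).map' (LinearMap.mulLeft k W)
      (LinearMap.ker_eq_bot.2 (mul_right_injective₀ hW))
  have hcardr : Fintype.card (Fin h → Fin j) = j ^ h := by simp
  let e : Fin (j ^ h) ≃ (Fin h → Fin j) := (Fintype.equivFinOfCardEq hcardr).symm
  refine ⟨fun l => η (e l), hli.comp e e.injective, fun l => ?_⟩
  rw [← hMm]
  exact hη (e l)

theorem pairKod_mono {a b : ℕ} (hab : b ≤ a) (h : PairKod k K n δ a) : PairKod k K n δ b := by
  obtain ⟨m, hm, ω, hω, D, h0, hind⟩ := h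
  have h1 : b + 1 ≤ a + 1 := by omega
  refine ⟨m, hm, fun l => ω (Fin.castLE h1 l), fun l => hω _, D, fun l => h0 _, ?_⟩
  have h2 := hind.comp (Fin.castLE hab) (Fin.castLE_injective hab)
  convert h2 using 1
  funext l
  have e1 : Fin.castLE h1 l.succ = (Fin.castLE hab l).succ := by ext; simp
  have e2 : Fin.castLE h1 0 = 0 := by ext; simp
  simp only [Function.comp, e1, e2]

theorem pairNum_mono {a b : ℕ} (hab : a ≤ b) (h : PairNum k K n δ a) : PairNum k K n δ b := by
  intro S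
  obtain ⟨C, hC⟩ := h S
  refine ⟨C, fun m N hm hN => (hC m N hm hN).trans ?_⟩
  exact Nat.mul_le_mul_left C (Nat.pow_le_pow_right hm hab)

theorem pair_le {a h : ℕ} (hk : PairKod k K n δ a) (hnum : PairNum k K n δ h) : a ≤ h := by
  obtain ⟨m, hm, hj⟩ := pair_growth hk
  obtain ⟨C, hC⟩ := hnum {1}
  by_contra hlt
  push Not at hlt
  have key : ∀ j : ℕ, 1 ≤ j → j ^ a ≤ C * (j * m) ^ h := by
    intro j hj1
    obtain ⟨ω, hω1, hω2⟩ := hj j hj1
    refine hC (j * m) (j ^ a) (Nat.mul_pos hj1 hm) ⟨ω, hω1, fun l => ?_⟩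
    obtain ⟨h1, h2⟩ := psec_iff.1 (hω2 l)
    refine ⟨h1, fun v hv D hD => ?_⟩
    rcases h2 v hv D hD with h3 | h3
    · exact Or.inl h3
    · right
      refine ⟨1, Finset.mem_singleton_self 1, one_ne_zero, ?_⟩
      rw [v.ord_one]
      simpa using h3
  have h1 := key (C * m ^ h + 1) (by omega)
  have h2 : (C * m ^ h + 1) ^ (h + 1) ≤ (C * m ^ h + 1) ^ a :=
    Nat.pow_le_pow_right (by omega) (by omega)
  have h3 : C * ((C * m ^ h + 1) * m) ^ h = (C * m ^ h) * (C * m ^ h + 1) ^ h := by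
    rw [mul_pow]
    ring
  rw [h3] at h1
  have h4 : (C * m ^ h + 1) ^ (h + 1) = (C * m ^ h + 1) * (C * m ^ h + 1) ^ h := by
    rw [pow_succ]
    ring
  rw [h4] at h2
  have h5 : 0 < (C * m ^ h + 1) ^ h := Nat.pow_pos (by omega)
  nlinarith

end

end Pool.Agent.V11168.Rel
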