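import Pool.Agent.V11168.Rel.Low2
import Pool.Agent.V11168.Abund.Dim
import Pool.Agent.W619.Y.Down
import Pool.Agent.Y174.H3

/-! Kodaira dimension and numerical dimension of quotients of fibre spaces. -/

set_option autoImplicit false
set_option linter.overlappingInstances false
set_option linter.unusedSectionVars false

open FF IntermediateField Pool.Agent.W619.PQ Pool.Agent.W619.PL Pool.Agent.W619.TW
  Pool.Agent.W603.LV Pool.Agent.W619.Y Pool.Agent.Y173.QA Pool.Agent.Y173.QM
  Pool.Agent.V11168.Abund

namespace Pool.Agent.V11168.Rel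

section consts

variable {N M L : Type} [Field N] [CharZero N] [Field M] [Field L] [Algebra N M] [Algebra M L]
  [Algebra N L] [IsScalarTower N M L]

/-- a derivation over `N` is a derivation over the algebraic extension `M` -/
theorem der_const [Algebra.IsAlgebraic N M] (D : Derivation N L L) (c : M) :
    D (algebraMap M L c) = 0 := by
  obtain ⟨y, hy⟩ := Pool.Agent.W636.PG.exists_basis N M 0
    (by rw [Nat.cast_zero]; exact _root_.trdeg_eq_zero_iff.2 inferInstance)
  exact der_zero (D.compAlgebraMap M) y hy (fun i => i.elim0) c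

/-- the derivation over `M` -/
def liftC [Algebra.IsAlgebraic N M] (D : Derivation N L L) : Derivation M L L :=
  { toFun := D
    map_add' := map_add D
    map_smul' := by
      intro c z
      have h1 : c • z = algebraMap M L c * z := Algebra.smul_def c z
      have h2 : c • D z = algebraMap M L c * D z := Algebra.smul_def c (D z)
      rw [RingHom.id_apply, h1, Derivation.leibniz, der_const, smul_zero, add_zero]
      exact h2.symm
    map_one_eq_zero' := D.map_one_eq_zero
    leibniz' := D.leibniz }

theorem liftC_res [Algebra.IsAlgebraic N M] (D : Derivation N L L) :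
    (liftC (M := M) D).restrictScalars N = D := by
  ext z
  rfl

/-- The Kodaira dimension does not change under an algebraic extension of the constants (which are
contained in the function field). -/
theorem kod_const [Algebra.IsAlgebraic N M] {n c : ℕ} (h : KodTr N L n c) : KodTr M L n c := by
  obtain ⟨m, hm, ω, hω, D, h0, hind⟩ := h
  have hM0 : CharZero M := charZero_of_injective_algebraMap (algebraMap N M).injective
  refine ⟨m, hm, fun l D' => ω l (fun i => (D' i).restrictScalars N), fun l =>
    ⟨fun A D' => ?_, fun w hw _ D' hD' => ?_, fun v _ h => h.elim⟩, fun i => liftC (D i),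
    fun l => ?_, ?_⟩
  · have h1 := (hω l).1 A (fun i => (D' i).restrictScalars N)
    rw [← h1]
    refine congrArg (ω l) (funext fun i => ?_)
    ext z
    rw [Pool.Agent.W721.PG.EFF2.der_sum]
    change (∑ j, A i j • D' j) z = _
    rw [Pool.Agent.W721.PG.EFF2.der_sum]
    rfl
  · obtain ⟨y, hy⟩ : ∃ y : Fin (n - 1) → L, Pool.Agent.Y174.ResInd w y := hw
    have h1 := (hω l).2.1 (Pool.Agent.Y174.resPl N w) ⟨y, hy.down⟩ (fun h => h)
      (fun i => (D' i).restrictScalars N) hD'
    rcases h1 with h1 | ⟨s, hs, hs0, h1⟩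
    · exact Or.inl h1
    · exact Or.inr ⟨s, hs, hs0, h1⟩
  · change ω l (fun i => (liftC (D i)).restrictScalars N) ≠ 0
    simp only [liftC_res]
    exact h0 l
  · have h1 : (fun l : Fin c => ω l.succ (fun i => (liftC (M := M) (D i)).restrictScalars N) /
        ω 0 (fun i => (liftC (M := M) (D i)).restrictScalars N)) =
        fun l : Fin c => ω l.succ D / ω 0 D := by
      simp only [liftC_res]
    change AlgebraicIndependent M (fun l : Fin c => ω l.succ (fun i =>
      (liftC (M := M) (D i)).restrictScalars N) /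
        ω 0 (fun i => (liftC (M := M) (D i)).restrictScalars N))
    rw [h1]
    exact hind.extendScalars M

theorem alg_of_trdeg {d : ℕ} (hM : Algebra.trdeg N M = d) (hL : Algebra.trdeg N L = d) :
    Algebra.IsAlgebraic M L := by
  rw [← _root_.trdeg_eq_zero_iff]
  have h2 := _root_.trdeg_add_eq N M (A := L)
  rw [hM, hL] at h2
  exact Cardinal.eq_of_add_eq_add_left (h2.trans (add_zero _).symm) Cardinal.natCast_lt_aleph0

theorem trdeg_sub [Algebra.IsAlgebraic M L] {d : ℕ} (hL : Algebra.trdeg N L = d) :
    Algebra.trdeg N M = d := by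
  have h2 := _root_.trdeg_add_eq N M (A := L)
  rw [_root_.trdeg_eq_zero_iff.2 ‹Algebra.IsAlgebraic M L›, add_zero] at h2
  rw [h2, hL]

end consts

variable {k : Type} [Field k] [CharZero k] {L : Type} [Field L] [Algebra k L]
  {M : IntermediateField k L}

/-- **The main theorem.** -/
theorem rel_main [IsAlgClosed k] [hess : Algebra.EssFiniteType k L]
    [hessM : Algebra.EssFiniteType k M] (hMcl : ∀ x : L, IsAlgebraic M x → x ∈ M) {d r : ℕ}
    (hM : Algebra.trdeg k M = d) (hn : Algebra.trdeg k L = (d + (r + 1) : ℕ))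
    (G : Subgroup (L ≃ₐ[k] L)) [Finite G]
    {V : Submodule k (Derivation k L L →ₗ[L] L)} (hreg : ∀ θ ∈ V, IsRegForm (d + (r + 1)) θ)
    (hcl : ∀ θ ∈ V, IsClosedForm θ)
    (hstab : ∀ g ∈ G, ∀ θ ∈ V, ∃ θ' ∈ V, IsImage g θ θ')
    {θ : Fin (r + 1) → Derivation k L L →ₗ[L] L} (hθ : ∀ i, θ i ∈ V)
    (hind : IndepOver (m := d) M θ) :
    ∃ a : ℕ, a + Module.finrank M (constFields (fibreForms M V)) = r + 1 ∧
      KodTr M L (r + 1) a ∧
      (ReidTaiOver d (r + 1) G M V → ∀ h, KodTr k M d h →
        KodTr k (fixedField G) (d + (r + 1)) (h + a)) ∧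
      (IsRegularOnModel (constFields (fibreForms M V)) →
        NumLe M L (r + 1) (fun _ => False) a ∧ NumLe k L (d + (r + 1)) (fun _ => False) (d + a) ∧
        NumLe k (fixedField G) (d + (r + 1)) (fun _ => False) (d + a)) := by
  obtain ⟨y, hy⟩ := Pool.Agent.W636.PG.exists_basis k M d hM
  obtain ⟨P, Pv, hP1, hP2, hPv⟩ := frame_fib hn hy hind
  obtain ⟨a, s, t, U, has, ht, htP, hU, hUt, hUspan, hrank, hkod⟩ :=
    fibre_str hess hMcl hM hn hreg hcl hθ hP1 hPv
  refine ⟨a, by rw [hrank]; exact has, hkod, fun hRT h hh =>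
    kod_rel hessM G hM hn hreg hstab hRT hy hθ hP1 hP2 ht htP hh, fun hmod => ?_⟩
  have h1 := fibre_num hess hM hn hmod has ht hU hUt hUspan
  have h2 : NumLe k L (d + (r + 1)) (fun _ => False) (d + a) := by
    refine Pool.Agent.Y174.easy_add (k := k) (L := M) (K := L) (Λ := M) (F := L) hessM hess ?_ ?_
      hM hn h1
    · rw [eq_top_iff]
      intro x _
      exact IntermediateField.subset_adjoin M _ ⟨x, rfl⟩
    · intro x hx
      exact ⟨⟨x, hMcl x hx.isAlgebraic⟩, rfl⟩
  exact ⟨h1, h2, (down (d + (r + 1)) hn G).2.2 _ h2⟩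

/-- The Kodaira dimension of the fibres of the quotient. -/
theorem fibre_quot [hess : Algebra.EssFiniteType k L] {d r a c : ℕ}
    (hM : Algebra.trdeg k M = d) (hn : Algebra.trdeg k L = (d + (r + 1) : ℕ))
    (G : Subgroup (L ≃ₐ[k] L)) [Finite G]
    (hnum : NumLe M L (r + 1) (fun _ => False) a)
    {N : IntermediateField k L} (hNM : N ≤ M) (hNG : N ≤ fixedField G)
    (hN : Algebra.trdeg k N = d)
    (hc : KodTr N (IntermediateField.extendScalars hNG) (r + 1) c) : c ≤ a := by
  have hfd : FiniteDimensional (fixedField G) L := fd_fixed G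
  have hfd' : FiniteDimensional (IntermediateField.extendScalars hNG) L := hfd
  have hessN : Algebra.EssFiniteType N L := Algebra.EssFiniteType.of_comp k N L
  have hNL : Algebra.trdeg N L = (r + 1 : ℕ) := Pool.Agent.Y174.trdeg_LK (L := N) hN hn
  have halg' : Algebra.IsAlgebraic (IntermediateField.extendScalars hNG) L :=
    Algebra.IsAlgebraic.of_finite _ _
  have hKN : Algebra.trdeg N (IntermediateField.extendScalars hNG) = (r + 1 : ℕ) :=
    trdeg_sub (L := L) hNL
  obtain ⟨z, hz⟩ := Pool.Agent.W636.PG.exists_basis N (IntermediateField.extendScalars hNG)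
    (r + 1) hKN
  have hessK : Algebra.EssFiniteType N (IntermediateField.extendScalars hNG) :=
    Pool.Agent.Y174.ess_down (L := L) hessN z hz
  have h1 : KodTr N L (r + 1) c :=
    Pool.Agent.Y174.kod_up (L := L) hessK hKN hc
  let _ : Algebra N M := (IntermediateField.inclusion hNM).toRingHom.toAlgebra
  have tNM : IsScalarTower N M L := IsScalarTower.of_algebraMap_eq fun _ => rfl
  have tkNM : IsScalarTower k N M := IsScalarTower.of_algebraMap_eq fun _ => rfl
  have halg : Algebra.IsAlgebraic N M := alg_of_trdeg hN hM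
  have h2 : KodTr M L (r + 1) c := kod_const h1
  exact le_of_kod_num (Pool.Agent.Y174.trdeg_LK (L := M) hM hn) h2 hnum

/-- The Kodaira dimension of the base of the quotient. -/
theorem base_quot [hessM : Algebra.EssFiniteType k M] {d b : ℕ} (hM : Algebra.trdeg k M = d)
    {N : IntermediateField k L} (hNM : N ≤ M) (hN : Algebra.trdeg k N = d)
    (hb : KodTr k N d b) : KodTr k M d b := by
  let _ : Algebra N M := (IntermediateField.inclusion hNM).toRingHom.toAlgebra
  have tNM : IsScalarTower N M L := IsScalarTower.of_algebraMap_eq fun _ => rfl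
  have tkNM : IsScalarTower k N M := IsScalarTower.of_algebraMap_eq fun _ => rfl
  have halg : Algebra.IsAlgebraic N M := alg_of_trdeg hN hM
  have hessNM : Algebra.EssFiniteType N M := Algebra.EssFiniteType.of_comp k N M
  have hfd : FiniteDimensional N M := Algebra.finite_of_essFiniteType_of_isAlgebraic
  obtain ⟨z, hz⟩ := Pool.Agent.W636.PG.exists_basis k N d hN
  have hessN : Algebra.EssFiniteType k N := Pool.Agent.Y174.ess_down (L := M) hessM z hz
  exact Pool.Agent.Y174.kod_up (L := M) hessN hN hb

end Pool.Agent.V11168.Rel
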