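import Pool.Agent.V11168.Rel.Fib

/-! The generic fibre of a variety with closed regular 1-forms: structure. -/

set_option autoImplicit false
set_option linter.overlappingInstances false
set_option linter.unusedSectionVars false

open FF IntermediateField Pool.Agent.W619.PQ Pool.Agent.W619.PL Pool.Agent.W619.TW
  Pool.Agent.W603.LV Pool.Agent.W619.Y Pool.Agent.Y173.QA Pool.Agent.Y173.QM
  Pool.Agent.V11168.Abund

namespace Pool.Agent.V11168.Rel

section general

variable {k : Type} [Field k] [CharZero k] {L : Type} [Field L] [Algebra k L]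

/-- forms on a variety with regular 1-forms -/
theorem kod_direct {n a : ℕ} {θ : Fin n → Derivation k L L →ₗ[L] L}
    (hreg : ∀ i, IsRegForm n (θ i)) {P : Fin n → Derivation k L L}
    (hP1 : ∀ i j, θ i (P j) = if i = j then 1 else 0) (hP : ∀ D, D = ∑ i, θ i D • P i)
    {t : Fin a → L} (ht : AlgebraicIndependent k t)
    (htP : ∀ j, ∃ τ : Derivation k L L →ₗ[L] L, IsRegForm n τ ∧ ∃ i, t j = τ (P i)) :
    KodTr k L n a := by
  choose τ hτ i hi using htP
  have hη : eta θ P = 1 := by
    unfold eta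
    have h1 : (Matrix.of fun i j => θ i (P j)) = 1 := by
      ext i j
      rw [Matrix.of_apply, hP1, Matrix.one_apply]
    rw [h1, Matrix.det_one]
  obtain ⟨Θ, hΘ⟩ : ∃ Θ : Fin (a + 1) → Fin n → Derivation k L L →ₗ[L] L,
      Θ = Fin.cons θ (fun j => Function.update θ (i j) (τ j)) := ⟨_, rfl⟩
  have hΘV : ∀ l b, IsRegForm n (Θ l b) := by
    intro l b
    rw [hΘ]
    refine Fin.cases ?_ (fun j => ?_) l
    · exact hreg b
    · rw [Fin.cons_succ]
      by_cases hb : b = i j
      · rw [hb, Function.update_self]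
        exact hτ j
      · rw [Function.update_of_ne hb]
        exact hreg b
  have hval : ∀ D, eta (Θ 0) D = eta θ D := by
    intro D
    rw [hΘ, Fin.cons_zero]
  have hval2 : ∀ (j : Fin a) D, eta (Θ j.succ) D = t j * eta θ D := by
    intro j D
    rw [hΘ, Fin.cons_succ, eta_update hP, hi]
  refine ⟨1, le_rfl, fun l D => eta (Θ l) D, fun l => ⟨eta_pluri (Θ l), fun v hv _ D hD => ?_,
    fun v _ h => h.elim⟩, P, fun l => ?_, ?_⟩
  · have h1 := eta_reg (hΘV l) hv hD
    rcases h1 with h1 | h1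
    · exact Or.inl h1
    · right
      refine ⟨1, Finset.mem_singleton_self 1, one_ne_zero, ?_⟩
      simpa using h1
  · refine Fin.cases ?_ (fun j => ?_) l
    · change eta (Θ 0) P ≠ 0
      rw [hval, hη]
      exact one_ne_zero
    · change eta (Θ j.succ) P ≠ 0
      rw [hval2, hη, mul_one]
      exact ht.ne_zero j
  · have e1 : (fun l : Fin a => eta (Θ l.succ) P / eta (Θ 0) P) = t := by
      funext l
      rw [hval, hval2, hη, mul_one, div_one]
    rw [e1]
    exact ht

end general

variable {k : Type} [Field k] [CharZero k] {L : Type} [Field L] [Algebra k L]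
  {M : IntermediateField k L}

/-- The frame adapted to the fibres. -/
theorem frame_fib {d r : ℕ} (hn : Algebra.trdeg k L = (d + (r + 1) : ℕ))
    {y : Fin d → M} (hy : IsTranscendenceBasis k y)
    {θ : Fin (r + 1) → Derivation k L L →ₗ[L] L} (hind : IndepOver (m := d) M θ) :
    ∃ (P : Fin (d + (r + 1)) → Derivation k L L) (Pv : Fin (r + 1) → Derivation M L L),
      (∀ i j, fam (fun l => (y l : L)) θ i (P j) = if i = j then 1 else 0) ∧
      (∀ D, D = ∑ i, fam (fun l => (y l : L)) θ i D • P i) ∧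
      (∀ j, (Pv j).restrictScalars k = P (Fin.natAdd d j)) := by
  classical
  obtain ⟨z, D0, hz, hD0⟩ := (indep_iff M θ).1 hind
  obtain ⟨E, hE⟩ := Pool.Agent.W636.PG.exists_duals k M d y hy
  have hch := fun (D : Derivation k L L) (f : M) =>
    Pool.Agent.W73.PG.PULL.chain (L := L) y hy E hE D f
  have h1 : eta (fam (fun l => (y l : L)) θ) D0 ≠ 0 := by
    rw [eta_base (Matrix.of fun l c => algebraMap M L (E c ⟨z l, hz l⟩))
      (z' := fun l => (y l : L)) (fun D l => ?_) θ D0] at hD0
    · exact right_ne_zero_of_mul hD0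
    · have h2 := hch D ⟨z l, hz l⟩
      change D (z l) = _ at h2
      rw [h2]
      refine Finset.sum_congr rfl fun c _ => ?_
      rw [Matrix.of_apply, mul_comm]
      rfl
  obtain ⟨P, hP1, hP2⟩ := dual_frame hn h1
  have hv : ∀ j, ∀ x ∈ M, P (Fin.natAdd d j) x = 0 := by
    intro j x hx
    have h2 := hch (P (Fin.natAdd d j)) ⟨x, hx⟩
    change P (Fin.natAdd d j) x = _ at h2
    rw [h2]
    refine Finset.sum_eq_zero fun c _ => ?_
    have h3 := hP1 (Fin.castAdd (r + 1) c) (Fin.natAdd d j)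
    rw [fam_left, dform_apply, if_neg] at h3
    · change P (Fin.natAdd d j) (y c : L) * _ = 0
      rw [h3, zero_mul]
    · intro h4
      have h5 := congrArg Fin.val h4
      simp only [Fin.val_castAdd, Fin.val_natAdd] at h5
      omega
  exact ⟨P, fun j => liftM (P (Fin.natAdd d j)) (hv j), hP1, hP2, fun j => liftM_res _ _⟩

theorem ess_fib (hess : Algebra.EssFiniteType k L) : Algebra.EssFiniteType M L :=
  Algebra.EssFiniteType.of_comp k M L

theorem fin_fib (hess : Algebra.EssFiniteType k L) {n : ℕ} (y : Fin n → L)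
    (hy : IsTranscendenceBasis M y) :
    FiniteDimensional (IntermediateField.adjoin M (Set.range y)) L := by
  have h0 := ess_fib (M := M) hess
  exact Pool.Agent.W824.PG.fin_adj h0 y hy

/-- **The structure of the generic fibre.** -/
theorem fibre_str (hess : Algebra.EssFiniteType k L) (hMcl : ∀ x : L, IsAlgebraic M x → x ∈ M)
    {d r : ℕ} (hM : Algebra.trdeg k M = d) (hn : Algebra.trdeg k L = (d + (r + 1) : ℕ))
    {V : Submodule k (Derivation k L L →ₗ[L] L)} (hreg : ∀ θ ∈ V, IsRegForm (d + (r + 1)) θ)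
    (hcl : ∀ θ ∈ V, IsClosedForm θ)
    {y : Fin d → M}
    {θ : Fin (r + 1) → Derivation k L L →ₗ[L] L} (hθ : ∀ i, θ i ∈ V)
    {P : Fin (d + (r + 1)) → Derivation k L L} {Pv : Fin (r + 1) → Derivation M L L}
    (hP : ∀ i j, fam (fun l => (y l : L)) θ i (P j) = if i = j then 1 else 0)
    (hPv : ∀ j, (Pv j).restrictScalars k = P (Fin.natAdd d j)) :
    ∃ (a s : ℕ) (t : Fin a → L) (U : Fin s → Derivation M L L),
      a + s = r + 1 ∧ AlgebraicIndependent M t ∧
      (∀ j, ∃ τ ∈ V, ∃ i, t j = τ (P (Fin.natAdd d i))) ∧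
      (∀ i, U i ∈ constFields (fibreForms M V)) ∧ (∀ i j, U i (t j) = 0) ∧
      (∀ D : Derivation M L L, (∀ j, D (t j) = 0) → ∃ c : Fin s → L, D = ∑ i, c i • U i) ∧
      Module.finrank M (constFields (fibreForms M V)) = s ∧ KodTr M L (r + 1) a := by
  classical
  have hθP : ∀ i j, toFibre M (θ i) (Pv j) = if i = j then 1 else 0 := by
    intro i j
    rw [toFibre_apply, hPv]
    have h1 := hP (Fin.natAdd d i) (Fin.natAdd d j)
    rw [fam_right] at h1
    rw [h1]
    by_cases hij : i = j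
    · rw [if_pos hij, if_pos (by rw [hij])]
    · rw [if_neg hij, if_neg (fun h => hij (Fin.natAdd_injective _ _ h))]
  have hdet : eta (fun i => toFibre M (θ i)) Pv ≠ 0 := by
    unfold eta
    have h1 : (Matrix.of fun i j => toFibre M (θ i) (Pv j)) = 1 := by
      ext i j
      rw [Matrix.of_apply, hθP, Matrix.one_apply]
    rw [h1, Matrix.det_one]
    exact one_ne_zero
  have hsub : ∀ τ ∈ V, toFibre M τ ∈ fibreForms M V := fun τ hτ =>
    Submodule.subset_span ⟨τ, hτ, rfl⟩
  have hregF := reg_fibre (M := M) hess hM hn hreg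
  obtain ⟨a, s, t, P', U, has, ht, hP1, hP2, htS, hU, hUt, hUspan, -, hrank⟩ :=
    structure_gen (k := M) (L := L) (fun x hx => ⟨⟨x, hMcl x hx⟩, rfl⟩)
      (Pool.Agent.Y174.trdeg_LK (L := M) hM hn) (fun y hy => fin_fib hess y hy)
      (toFibre M '' (V : Set (Derivation k L L →ₗ[L] L))) (fibreForms M V) rfl
      hregF (closed_fibre hcl) (θ := fun i => toFibre M (θ i)) (fun i => hsub _ (hθ i)) hdet
  have hPP : ∀ j, Pv j = P' j := by
    intro j
    rw [hP2 (Pv j), Finset.sum_eq_single j]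
    · rw [hθP, if_pos rfl, one_smul]
    · intro b _ hb
      rw [hθP, if_neg hb, zero_smul]
    · intro h
      exact absurd (Finset.mem_univ _) h
  refine ⟨a, s, t, U, has, ht, fun j => ?_, hU, hUt, hUspan, hrank, ?_⟩
  · obtain ⟨τ', ⟨τ, hτ, rfl⟩, i, hi⟩ := htS j
    refine ⟨τ, hτ, i, ?_⟩
    rw [hi, toFibre_apply, ← hPP, hPv]
  · refine kod_direct (fun i => hregF _ (hsub _ (hθ i))) hP1 hP2 ht fun j => ?_
    obtain ⟨τ', ⟨τ, hτ, rfl⟩, i, hi⟩ := htS j
    exact ⟨_, hregF _ (hsub _ hτ), i, hi⟩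

/-- The numerical dimension of the generic fibre. -/
theorem fibre_num (hess : Algebra.EssFiniteType k L)
    {d r : ℕ} (hM : Algebra.trdeg k M = d) (hn : Algebra.trdeg k L = (d + (r + 1) : ℕ))
    {W : Submodule M (Derivation M L L)} (hW : IsRegularOnModel W)
    {a s : ℕ} {t : Fin a → L} {U : Fin s → Derivation M L L} (has : a + s = r + 1)
    (ht : AlgebraicIndependent M t) (hU : ∀ i, U i ∈ W) (hUt : ∀ i j, U i (t j) = 0)
    (hUspan : ∀ D : Derivation M L L, (∀ j, D (t j) = 0) →
      ∃ c : Fin s → L, D = ∑ i, c i • U i) :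
    NumLe M L (r + 1) (fun _ => False) a := by
  have h1 := Pool.Agent.Y174.trdeg_LK (L := M) hM hn
  rw [← has] at h1 ⊢
  obtain ⟨N, z, hz0, htop, hUB⟩ := hW
  exact num_core (by omega) h1 (fun y hy => fin_fib hess y hy) ht hz0 htop hUt
    (fun l i j => hUB _ (hU l) i j) hUspan

end Pool.Agent.V11168.Rel
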