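import Pool.Agent.Y173.QM.Defs

/-! The restriction of 1-forms to the generic fibre. -/

set_option autoImplicit false
set_option linter.overlappingInstances false
set_option linter.unusedSectionVars false

universe u v

open FF Pool.Agent.W619.PQ Pool.Agent.Y173.QA

namespace Pool.Agent.V11168.Rel

section

variable {k : Type v} {L : Type u} [Field k] [Field L] [Algebra k L]

/-- The restriction of the `1`-form `θ` to the generic fibre of the rational map given by the
subfield `M`: its values on the vector fields along the fibres. -/
def toFibre (M : IntermediateField k L) (θ : Derivation k L L →ₗ[L] L) :
    Derivation M L L →ₗ[L] L where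
  toFun D := θ (D.restrictScalars k)
  map_add' D D' := by rw [← map_add]; rfl
  map_smul' c D := by rw [← map_smul]; rfl

/-- The `1`-forms on the generic fibre which are linear combinations, with coefficients in `M`, of the
restrictions of the forms in `V`. -/
def fibreForms (M : IntermediateField k L) (V : Submodule k (Derivation k L L →ₗ[L] L)) :
    Submodule M (Derivation M L L →ₗ[L] L) :=
  Submodule.span M (toFibre M '' (V : Set (Derivation k L L →ₗ[L] L)))

end

end Pool.Agent.V11168.Rel
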