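import Pool.Agent.V11168.Rel.Defs
import Pool.Agent.V11168.Abund.Str
import Pool.Agent.V11168.Abund.Up
import Pool.Agent.V11168.Abund.Low
import Pool.Agent.Y173.QM.Loc
import Pool.Agent.Y174.V2

/-! The generic fibre of a variety with closed regular 1-forms. -/

set_option autoImplicit false
set_option linter.overlappingInstances false
set_option linter.unusedSectionVars false

open FF IntermediateField Pool.Agent.W619.PQ Pool.Agent.W619.PL Pool.Agent.W619.TW
  Pool.Agent.W603.LV Pool.Agent.W619.Y Pool.Agent.Y173.QA Pool.Agent.Y173.QM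

namespace Pool.Agent.V11168.Rel

variable {k : Type} [Field k] [CharZero k] {L : Type} [Field L] [Algebra k L]
  {M : IntermediateField k L}

theorem toFibre_apply (θ : Derivation k L L →ₗ[L] L) (D : Derivation M L L) :
    toFibre M θ D = θ (D.restrictScalars k) := rfl

/-- a vector field which vanishes on `M` is a vector field along the fibres -/
def liftM (D : Derivation k L L) (hD : ∀ x ∈ M, D x = 0) : Derivation M L L :=
  { toFun := D
    map_add' := map_add D
    map_smul' := by
      intro c z
      have h1 : c • z = (c : L) * z := by rw [Algebra.smul_def]; rfl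
      rw [h1, Derivation.leibniz, hD _ c.2, smul_zero, add_zero, RingHom.id_apply,
        Algebra.smul_def]
      rfl
    map_one_eq_zero' := D.map_one_eq_zero
    leibniz' := D.leibniz }

theorem liftM_res (D : Derivation k L L) (hD : ∀ x ∈ M, D x = 0) :
    (liftM D hD).restrictScalars k = D := by
  ext z
  rfl

theorem closed_fibre {V : Submodule k (Derivation k L L →ₗ[L] L)}
    (hcl : ∀ θ ∈ V, IsClosedForm θ) : ∀ θ ∈ fibreForms M V, IsClosedForm θ := by
  intro θ hθ
  unfold fibreForms at hθ
  induction hθ using Submodule.span_induction with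
  | mem θ hθ =>
    obtain ⟨θ0, hθ0, rfl⟩ := hθ
    intro D D'
    have h1 := hcl θ0 hθ0 (D.restrictScalars k) (D'.restrictScalars k)
    have h2 : ⁅D.restrictScalars k, D'.restrictScalars k⁆ =
        (⁅D, D'⁆ : Derivation M L L).restrictScalars k := by
      ext z
      rfl
    rw [h2] at h1
    exact h1
  | zero =>
    intro D D'
    simp
  | add θ θ' _ _ h h' =>
    intro D D'
    rw [LinearMap.add_apply, LinearMap.add_apply, LinearMap.add_apply, h, h', map_add, map_add]
    ring
  | smul c θ _ h =>
    intro D D'
    rw [LinearMap.smul_apply, LinearMap.smul_apply, LinearMap.smul_apply, h,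
      Derivation.map_smul, Derivation.map_smul, smul_sub]

theorem reg_fibre (hess : Algebra.EssFiniteType k L) {d r : ℕ} (hM : Algebra.trdeg k M = d)
    (hn : Algebra.trdeg k L = (d + (r + 1) : ℕ)) {V : Submodule k (Derivation k L L →ₗ[L] L)}
    (hreg : ∀ θ ∈ V, IsRegForm (d + (r + 1)) θ) : ∀ θ ∈ fibreForms M V, IsRegForm (r + 1) θ := by
  obtain ⟨t, ht⟩ := Pool.Agent.W636.PG.exists_basis k M d hM
  intro θ hθ w hw D hD
  unfold fibreForms at hθ
  induction hθ using Submodule.span_induction with
  | mem θ hθ =>
    obtain ⟨θ0, hθ0, rfl⟩ := hθ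
    exact hreg θ0 hθ0 (Pool.Agent.Y174.resPl k w)
      (Pool.Agent.Y174.exists_frame_fib hess hn ht.1 hw).1 (D.restrictScalars k) hD
  | zero => exact w.reg_zero
  | add θ θ' _ _ h h' =>
    rw [LinearMap.add_apply]
    exact w.reg_add h h'
  | smul c θ _ h =>
    rw [LinearMap.smul_apply, Algebra.smul_def]
    refine w.reg_mul ?_ h
    by_cases hc : c = 0
    · rw [hc, map_zero]
      exact w.reg_zero
    · exact Or.inr (w.ord_const hc).ge

end Pool.Agent.V11168.Rel
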