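import Pool.Agent.Y174.RA.A7

/-! Orbifold symmetric differentials without common zeros along the fibres of a rational map:
restriction to the geometric generic fibre. -/

set_option autoImplicit false
set_option linter.overlappingInstances false
set_option linter.unusedSectionVars false
set_option maxHeartbeats 400000

open FF MvPolynomial Pool.Agent.W619.PQ Pool.Agent.W619.PL Pool.Agent.W619.TW
  Pool.Agent.W603.LV Pool.Agent.W619.Y Pool.Agent.W824.PG Pool.Agent.Y174.T Pool.Agent.Y174.SD
  Pool.Agent.Y174.OB Pool.Agent.Y174.RA Pool.Agent.Y174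

namespace Pool.Agent.V11168.Rel

section

variable {k : Type} {L K Λ F : Type} [Field k] [CharZero k] [Field L] [Field K] [Field Λ]
  [Field F] [Algebra k L] [Algebra k K] [Algebra L K] [IsScalarTower k L K] [Algebra L Λ]
  [Algebra Λ F] [Algebra K F] [Algebra L F] [IsScalarTower L Λ F] [IsScalarTower L K F]
  [Algebra k Λ] [Algebra k F] [IsScalarTower k Λ F] [IsScalarTower k K F]
  [IsScalarTower k L Λ]

/-- Restriction to the geometric generic fibre. -/
theorem noBaseRel_fib (hess : Algebra.EssFiniteType k K) [Algebra.IsAlgebraic L Λ] {d r : ℕ}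
    (hL : Algebra.trdeg k L = d) (hn : Algebra.trdeg k K = (d + (r + 1) : ℕ))
    (hgenF : IntermediateField.adjoin Λ (Set.range (algebraMap K F)) = ⊤)
    {δ0 : Place k K → ℝ} {δF : Place Λ F → ℝ} (hδ : IsPullFib δ0 δF) (hδ1 : ∀ v, δ0 v ≤ 1)
    (h : NoBaseRel L (d + (r + 1)) δ0) : NoBaseOrb Λ F (r + 1) δF := by
  classical
  have hL0 : CharZero L := charZero_of_injective_algebraMap (algebraMap k L).injective
  have hK0 : CharZero K := charZero_of_injective_algebraMap (algebraMap k K).injective
  have hΛ0 : CharZero Λ := charZero_of_injective_algebraMap (algebraMap k Λ).injective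
  have halg : Algebra.IsAlgebraic K F := alg_KF (L := L) hgenF
  have hLK := trdeg_LK (L := L) hL hn
  obtain ⟨t, ht⟩ := Pool.Agent.W636.PG.exists_basis k L d hL
  obtain ⟨Et, hEt⟩ := Pool.Agent.W636.PG.exists_duals k L d t ht
  obtain ⟨x, hx⟩ := Pool.Agent.W636.PG.exists_basis L K (r + 1) hLK
  have hy := basis_append ht hx
  have hx' := basis_F hLK hgenF hx
  obtain ⟨E0, hE0⟩ := Pool.Agent.W636.PG.exists_duals k K (d + (r + 1)) _ hy
  let E : Fin (r + 1) → Derivation k K K := fun j => E0 (Fin.natAdd d j)
  let α : Fin d → (Derivation k K K →ₗ[K] K) := fun i => dt (k := k) (algebraMap L K (t i))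
  have hE : LinearIndependent K E := by
    have h1 := (li_duals hE0).comp (Fin.natAdd d : Fin (r + 1) → Fin (d + (r + 1)))
      (Fin.natAdd_injective _ _)
    exact h1
  have hEt0 : ∀ (j : Fin (r + 1)) (i : Fin d), E j (algebraMap L K (t i)) = 0 := by
    intro j i
    have h1 := hE0 (Fin.natAdd d j) (Fin.castAdd (r + 1) i)
    rw [Fin.append_left, if_neg] at h1
    · exact h1
    · intro h2
      have h3 := congrArg Fin.val h2
      simp only [Fin.val_castAdd, Fin.val_natAdd] at h3
      omega
  have hEx : ∀ (j i : Fin (r + 1)), E j (x i) = if j = i then 1 else 0 := by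
    intro j i
    have h1 := hE0 (Fin.natAdd d j) (Fin.natAdd d i)
    rw [Fin.append_right] at h1
    refine Eq.trans h1 ?_
    by_cases hij : j = i
    · rw [if_pos hij, if_pos (by rw [hij])]
    · rw [if_neg hij, if_neg (fun h => hij (Fin.natAdd_injective _ _ h))]
  have hker : NoBaseKer (d + (r + 1)) δ0 α := by
    intro F hF c hc hcα
    refine h F hF c hc fun x => ?_
    have h1 : ∀ i, F i (algebraMap L K x) =
        ∑ b, algebraMap L K (Et b x) * F i (algebraMap L K (t b)) := fun i =>
      Pool.Agent.W308.PG.YLOC.expand t Et ht hEt (F i) x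
    have h2 : ∀ i, c i * algebraMap K (AlgebraicClosure K) (F i (algebraMap L K x)) =
        ∑ b, algebraMap K (AlgebraicClosure K) (algebraMap L K (Et b x)) *
          (c i * algebraMap K (AlgebraicClosure K) (α b (F i))) := by
      intro i
      rw [h1, map_sum, Finset.mul_sum]
      refine Finset.sum_congr rfl fun b _ => ?_
      rw [map_mul]
      change _ = _ * (c i * algebraMap K (AlgebraicClosure K) (F i (algebraMap L K (t b))))
      ring
    rw [Finset.sum_congr rfl fun i _ => h2 i, Finset.sum_comm]
    refine Finset.sum_eq_zero fun b _ => ?_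
    rw [← Finset.mul_sum, hcα b, mul_zero]
  obtain ⟨m, M, H, N, hm, hH, hreg, hN⟩ := exists_one_degree hy hker hE fun i j => hEt0 j i
  refine noBase_of_noZero hm (noZeroOrb_of_noZCO hx' ⟨M, fun j => rest F d (r + 1)
    (map (algebraMap K F) (H j)), N,
    fun j => rest_hom ((hH j).map _), fun j w hw D' E' hD' hE' => ?_, fun β hβ => ?_⟩)
  · have h2 : ∀ D' : Derivation Λ F F, sym (k := Λ) (algebraMap K F ∘ x)
        (rest F d (r + 1) (map (algebraMap K F) (H j))) D' =
        eval₂ (algebraMap K F) (fun c => D' (algebraMap K F
          (Fin.append (algebraMap L K ∘ t) x c))) (H j) := by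
      intro D'
      unfold sym
      rw [rest_eval, eval_map]
      congr 1
      funext c
      refine Fin.addCases (fun c => ?_) (fun i => ?_) c
      · rw [Fin.append_left, Fin.append_left, Function.comp_apply,
          ← IsScalarTower.algebraMap_apply L K F, IsScalarTower.algebraMap_apply L Λ F,
          Derivation.map_algebraMap]
      · rw [Fin.append_right, Fin.append_right]
        rfl
    obtain ⟨p, hp, hpc⟩ := symOrb_res hess hn ht.1 hδ hδ1 _ (H j) (hreg j) w hw D' E' hD' hE'
    exact ⟨p, fun x => by rw [h2, hp x], fun i => hpc i⟩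
  · have h1 := Ideal.mem_map_of_mem (map (algebraMap K F)) (hN β hβ)
    rw [Ideal.map_span, ← Set.range_comp, map_monomial, map_one] at h1
    have h2 : (fun j => rest F d (r + 1) (map (algebraMap K F) (H j))) =
        (⇑(map (algebraMap K F)) ∘ fun j => rs (Fin.append (algebraMap L K ∘ t) x) E (H j)) := by
      funext j
      have h3 : rs (Fin.append (algebraMap L K ∘ t) x) E =
          aeval (Fin.append (fun _ => 0) X : Fin (d + (r + 1)) → MvPolynomial (Fin (r + 1)) K) := by
        unfold rs
        congr 1
        funext c
        refine Fin.addCases (fun c => ?_) (fun i => ?_) c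
        · rw [Fin.append_left, Fin.append_left]
          refine Finset.sum_eq_zero fun i _ => ?_
          rw [Function.comp_apply, hEt0, C_0, zero_mul]
        · rw [Fin.append_right, Fin.append_right]
          rw [Finset.sum_eq_single i]
          · rw [hEx, if_pos rfl, C_1, one_mul]
          · intro b _ hb
            rw [hEx, if_neg hb, C_0, zero_mul]
          · intro h
            exact absurd (Finset.mem_univ _) h
      rw [Function.comp_apply, h3]
      unfold rest
      have h4 : ∀ p : MvPolynomial (Fin (d + (r + 1))) K,
          aeval (Fin.append (fun _ => 0) X : Fin (d + (r + 1)) → MvPolynomial (Fin (r + 1)) F)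
            (map (algebraMap K F) p) = map (algebraMap K F)
          (aeval (Fin.append (fun _ => 0) X : Fin (d + (r + 1)) →
            MvPolynomial (Fin (r + 1)) K) p) := by
        intro p
        induction p using MvPolynomial.induction_on with
        | C a => simp
        | add p q hp hq => rw [map_add, map_add, map_add, map_add, hp, hq]
        | mul_X p i hp =>
          rw [map_mul, map_mul, map_mul, map_mul, hp, map_X, aeval_X, aeval_X]
          congr 1
          refine Fin.addCases (fun c => ?_) (fun i => ?_) i
          · rw [Fin.append_left, Fin.append_left, map_zero]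
          · rw [Fin.append_right, Fin.append_right, map_X]
      exact h4 (H j)
    rw [h2]
    exact h1

end

end Pool.Agent.V11168.Rel
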